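import Mathlib
set_option autoImplicit false
open Matrix
open scoped TensorProduct
namespace Pool.Agent.X174.Cliff

/-- The quadratic form `Q(x) = ∑ x_j²` on `ℂ^d`. -/
noncomputable def normSq (d : ℕ) : QuadraticForm ℂ (Fin d → ℂ) :=
  QuadraticMap.weightedSumSquares ℂ (fun _ : Fin d => (1 : ℂ))

/-- The complex Clifford algebra on `d` generators (Mathlib's Clifford algebra of `Q`): the
universal unital complex algebra with generators `e_j`, `e_j² = 1`, `e_j e_k = - e_k e_j` for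
`j ≠ k`. -/
abbrev Cl (d : ℕ) : Type := CliffordAlgebra (normSq d)

/-- The generator `e_j` of the Clifford algebra: the image of the `j`-th basis vector. -/
noncomputable def gen {d : ℕ} (j : Fin d) : Cl d :=
  CliffordAlgebra.ι (normSq d) (Pi.single j 1)

/-- The pencil `L_λ(A) = ∑_j (A_j - λ_j I) ⊗ e_j` in `M_n(ℂ) ⊗ Cl(d)`. -/
noncomputable def pencil {d n : ℕ} (A : Fin d → Matrix (Fin n) (Fin n) ℂ) (lam : Fin d → ℝ) :
    Matrix (Fin n) (Fin n) ℂ ⊗[ℂ] Cl d :=
  ∑ j, (A j - (lam j : ℂ) • (1 : Matrix (Fin n) (Fin n) ℂ)) ⊗ₜ[ℂ] gen j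

/-- The Clifford spectrum `Λ(A)`: the set of `λ ∈ ℝ^d` for which the pencil is not invertible. -/
def cliffordSpectrum {d n : ℕ} (A : Fin d → Matrix (Fin n) (Fin n) ℂ) : Set (Fin d → ℝ) :=
  {lam | ¬ IsUnit (pencil A lam)}

/-- A one-manifold: a nonempty Hausdorff space in which every point has an open neighbourhood
homeomorphic to `ℝ`. -/
def IsOneManifold (X : Type*) [TopologicalSpace X] : Prop :=
  Nonempty X ∧ T2Space X ∧ ∀ x : X, ∃ U : Set X, IsOpen U ∧ x ∈ U ∧ Nonempty (U ≃ₜ ℝ)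

end Pool.Agent.X174.Cliff
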