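import Mathlib

set_option autoImplicit false

open Complex

namespace Pool.Agent.X174.Cliff

section Theta

variable {R : Type*} [Ring R] [Algebra ℂ R]

/-- three anticommuting involutions -/
structure Trip (a b c : R) : Prop where
  aa : a * a = 1
  bb : b * b = 1
  cc : c * c = 1
  ba : b * a = -(a * b)
  ca : c * a = -(a * c)
  cb : c * b = -(b * c)

noncomputable def s1 (_a b c : R) : R := (-I) • (b * c)
noncomputable def s2 (a _b c : R) : R := (-I) • (c * a)
noncomputable def s3 (a b _c : R) : R := (-I) • (a * b)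
noncomputable def w0 (a b c : R) : R := (-I) • (a * b * c)

variable {a b c : R}

omit [Algebra ℂ R] in
theorem bc_bc (h : Trip a b c) : b * c * (b * c) = -1 := by
  calc b * c * (b * c) = b * (c * b) * c := by noncomm_ring
    _ = -(b * b * (c * c)) := by rw [h.cb]; noncomm_ring
    _ = -1 := by rw [h.bb, h.cc]; simp

theorem s1s1 (h : Trip a b c) : s1 a b c * s1 a b c = 1 := by
  unfold s1
  rw [smul_mul_smul_comm, bc_bc h]
  simp

theorem s2s2 (h : Trip a b c) : s2 a b c * s2 a b c = 1 := by
  unfold s2
  have : c * a * (c * a) = -1 := by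
    calc c * a * (c * a) = c * (a * c) * a := by noncomm_ring
      _ = -(c * (c * a) * a) := by rw [h.ca]; noncomm_ring
      _ = -((c * c) * (a * a)) := by noncomm_ring
      _ = -1 := by rw [h.aa, h.cc]; simp
  rw [smul_mul_smul_comm, this]
  simp

theorem s3s3 (h : Trip a b c) : s3 a b c * s3 a b c = 1 := by
  unfold s3
  have : a * b * (a * b) = -1 := by
    calc a * b * (a * b) = a * (b * a) * b := by noncomm_ring
      _ = -((a * a) * (b * b)) := by rw [h.ba]; noncomm_ring
      _ = -1 := by rw [h.aa, h.bb]; simp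
  rw [smul_mul_smul_comm, this]
  simp

theorem s1s2 (h : Trip a b c) : s1 a b c * s2 a b c = I • s3 a b c := by
  unfold s1 s2 s3
  have : b * c * (c * a) = -(a * b) := by
    calc b * c * (c * a) = b * (c * c) * a := by noncomm_ring
      _ = b * a := by rw [h.cc]; simp
      _ = -(a * b) := h.ba
  rw [smul_mul_smul_comm, this, smul_smul]
  simp

theorem s2s1 (h : Trip a b c) : s2 a b c * s1 a b c = (-I) • s3 a b c := by
  unfold s1 s2 s3
  have : c * a * (b * c) = a * b := by
    calc c * a * (b * c) = (c * a) * b * c := by noncomm_ring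
      _ = -(a * (c * b) * c) := by rw [h.ca]; noncomm_ring
      _ = a * b * (c * c) := by rw [h.cb]; noncomm_ring
      _ = a * b := by rw [h.cc]; simp
  rw [smul_mul_smul_comm, this, smul_smul]

theorem s2s3 (h : Trip a b c) : s2 a b c * s3 a b c = I • s1 a b c := by
  unfold s1 s2 s3
  have : c * a * (a * b) = -(b * c) := by
    calc c * a * (a * b) = c * (a * a) * b := by noncomm_ring
      _ = c * b := by rw [h.aa]; simp
      _ = -(b * c) := h.cb
  rw [smul_mul_smul_comm, this, smul_smul]
  simp

theorem s3s2 (h : Trip a b c) : s3 a b c * s2 a b c = (-I) • s1 a b c := by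
  unfold s1 s2 s3
  have : a * b * (c * a) = b * c := by
    calc a * b * (c * a) = a * b * (c * a) := rfl
      _ = -(a * (b * a) * c) := by rw [h.ca]; noncomm_ring
      _ = (a * a) * b * c := by rw [h.ba]; noncomm_ring
      _ = b * c := by rw [h.aa]; simp
  rw [smul_mul_smul_comm, this, smul_smul]

theorem s3s1 (h : Trip a b c) : s3 a b c * s1 a b c = I • s2 a b c := by
  unfold s1 s2 s3
  have : a * b * (b * c) = -(c * a) := by
    calc a * b * (b * c) = a * (b * b) * c := by noncomm_ring
      _ = a * c := by rw [h.bb]; simp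
      _ = -(c * a) := by rw [h.ca]; simp
  rw [smul_mul_smul_comm, this, smul_smul]
  simp

theorem s1s3 (h : Trip a b c) : s1 a b c * s3 a b c = (-I) • s2 a b c := by
  unfold s1 s2 s3
  have : b * c * (a * b) = c * a := by
    calc b * c * (a * b) = b * (c * a) * b := by noncomm_ring
      _ = -((b * a) * (c * b)) := by rw [h.ca]; noncomm_ring
      _ = -((a * b) * (b * c)) := by rw [h.ba, h.cb]; noncomm_ring
      _ = -(a * (b * b) * c) := by noncomm_ring
      _ = -(a * c) := by rw [h.bb]; simp
      _ = c * a := h.ca.symm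
  rw [smul_mul_smul_comm, this, smul_smul]

theorem s1w (h : Trip a b c) : s1 a b c * w0 a b c = a := by
  unfold s1 w0
  have : b * c * (a * b * c) = -a := by
    calc b * c * (a * b * c) = b * (c * a) * (b * c) := by noncomm_ring
      _ = -((b * a) * c * (b * c)) := by rw [h.ca]; noncomm_ring
      _ = a * (b * c * (b * c)) := by rw [h.ba]; noncomm_ring
      _ = -a := by rw [bc_bc h]; simp
  rw [smul_mul_smul_comm, this]
  simp

theorem w_eq1 : w0 a b c = a * s1 a b c := by
  unfold s1 w0
  rw [mul_smul_comm, mul_assoc]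

theorem w_eq2 (h : Trip a b c) : w0 a b c = b * s2 a b c := by
  unfold s2 w0
  rw [mul_smul_comm]
  congr 1
  calc a * b * c = -(b * (a * c)) := by rw [← neg_eq_iff_eq_neg.mpr h.ba]; noncomm_ring
    _ = b * (c * a) := by rw [h.ca]; noncomm_ring

theorem w_eq3 (h : Trip a b c) : w0 a b c = c * s3 a b c := by
  unfold s3 w0
  rw [mul_smul_comm]
  congr 1
  calc a * b * c = -(a * (c * b)) := by rw [h.cb]; noncomm_ring
    _ = (c * a) * b := by rw [h.ca]; noncomm_ring
    _ = c * (a * b) := by noncomm_ring

theorem a_comm_s1 (h : Trip a b c) : a * s1 a b c = s1 a b c * a := by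
  unfold s1
  rw [mul_smul_comm, smul_mul_assoc]
  congr 1
  calc a * (b * c) = -((b * a) * c) := by rw [h.ba]; noncomm_ring
    _ = b * (c * a) := by rw [h.ca]; noncomm_ring
    _ = b * c * a := by noncomm_ring

theorem b_comm_s2 (h : Trip a b c) : b * s2 a b c = s2 a b c * b := by
  unfold s2
  rw [mul_smul_comm, smul_mul_assoc]
  congr 1
  calc b * (c * a) = -((c * b) * a) := by rw [h.cb]; noncomm_ring
    _ = c * a * b := by rw [mul_assoc c b a, h.ba]; noncomm_ring

theorem c_comm_s3 (h : Trip a b c) : c * s3 a b c = s3 a b c * c := by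
  unfold s3
  rw [mul_smul_comm, smul_mul_assoc]
  congr 1
  calc c * (a * b) = (c * a) * b := by noncomm_ring
    _ = -(a * (c * b)) := by rw [h.ca]; noncomm_ring
    _ = a * b * c := by rw [h.cb]; noncomm_ring

/-- `σ₁ w = a` etc. -/
theorem s1_mul_w (h : Trip a b c) : s1 a b c * w0 a b c = a := s1w h

theorem s2_mul_w (h : Trip a b c) : s2 a b c * w0 a b c = b := by
  rw [w_eq2 h, b_comm_s2 h, ← mul_assoc, s2s2 h, one_mul]

theorem s3_mul_w (h : Trip a b c) : s3 a b c * w0 a b c = c := by
  rw [w_eq3 h, c_comm_s3 h, ← mul_assoc, s3s3 h, one_mul]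

theorem w_comm_s1 (h : Trip a b c) : w0 a b c * s1 a b c = s1 a b c * w0 a b c := by
  rw [s1w h, w_eq1, mul_assoc, s1s1 h, mul_one]

theorem w_comm_s2 (h : Trip a b c) : w0 a b c * s2 a b c = s2 a b c * w0 a b c := by
  rw [s2_mul_w h, w_eq2 h, mul_assoc, s2s2 h, mul_one]

theorem w_comm_s3 (h : Trip a b c) : w0 a b c * s3 a b c = s3 a b c * w0 a b c := by
  rw [s3_mul_w h, w_eq3 h, mul_assoc, s3s3 h, mul_one]

theorem w_sq (h : Trip a b c) : w0 a b c * w0 a b c = 1 := by
  nth_rw 1 [w_eq1]
  rw [mul_assoc, s1w h, h.aa]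

/-- matrix units -/
noncomputable def E (a b c : R) : Fin 2 → Fin 2 → R
  | 0, 0 => (1/2 : ℂ) • (1 + s3 a b c)
  | 0, 1 => (1/2 : ℂ) • (s1 a b c + I • s2 a b c)
  | 1, 0 => (1/2 : ℂ) • (s1 a b c - I • s2 a b c)
  | 1, 1 => (1/2 : ℂ) • (1 - s3 a b c)

theorem E_mul (h : Trip a b c) (i j k l : Fin 2) :
    E a b c i j * E a b c k l = if j = k then E a b c i l else 0 := by
  have h11 := s1s1 h
  have h22 := s2s2 h
  have h33 := s3s3 h
  have h12 := s1s2 h
  have h21 := s2s1 h
  have h23 := s2s3 h
  have h32 := s3s2 h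
  have h31 := s3s1 h
  have h13 := s1s3 h
  fin_cases i <;> fin_cases j <;> fin_cases k <;> fin_cases l <;>
  · simp only [E, Fin.zero_eta, Fin.mk_one, if_true, mul_add, add_mul, mul_sub,
      sub_mul, one_mul, mul_one, smul_mul_assoc, mul_smul_comm, h11, h22, h33, h12, h21, h23, h32,
      h31, h13, smul_smul, smul_add, smul_sub, Fin.isValue, zero_ne_one, one_ne_zero, if_false]
    match_scalars <;> (ring_nf; try simp [I_sq]) <;> (try ring_nf)

/-- the homomorphism from the Pauli algebra -/
noncomputable def theta (h : Trip a b c) : Matrix (Fin 2) (Fin 2) ℂ →ₐ[ℂ] R :=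
  AlgHom.ofLinearMap
    { toFun := fun M => M 0 0 • E a b c 0 0 + M 0 1 • E a b c 0 1 + M 1 0 • E a b c 1 0
        + M 1 1 • E a b c 1 1
      map_add' := by intro M N; simp only [Matrix.add_apply]; module
      map_smul' := by intro r M; simp only [Matrix.smul_apply, smul_eq_mul, RingHom.id_apply]; module }
    (by
      simp only [LinearMap.coe_mk, AddHom.coe_mk, Matrix.one_apply_eq, ne_eq, zero_ne_one,
        not_false_eq_true, Matrix.one_apply_ne, one_ne_zero, zero_smul, add_zero, one_smul, E]
      module)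
    (by
      intro M N
      simp only [LinearMap.coe_mk, AddHom.coe_mk, Matrix.mul_apply, Fin.sum_univ_two, mul_add,
        add_mul, smul_mul_smul_comm, E_mul h]
      simp only [Fin.isValue, if_true, zero_ne_one, one_ne_zero, if_false, smul_zero, add_zero,
        zero_add]
      module)

theorem theta_apply (h : Trip a b c) (M : Matrix (Fin 2) (Fin 2) ℂ) :
    theta h M = M 0 0 • E a b c 0 0 + M 0 1 • E a b c 0 1 + M 1 0 • E a b c 1 0
        + M 1 1 • E a b c 1 1 := rfl

/-- Pauli matrices -/
def pauli : Fin 3 → Matrix (Fin 2) (Fin 2) ℂ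
  | 0 => !![0, 1; 1, 0]
  | 1 => !![0, -I; I, 0]
  | 2 => !![1, 0; 0, -1]

theorem theta_pauli0 (h : Trip a b c) : theta h (pauli 0) = s1 a b c := by
  rw [theta_apply]
  simp only [pauli, E, Matrix.of_apply, Matrix.cons_val', Matrix.cons_val_zero, Matrix.cons_val_one,
    Matrix.cons_val_fin_one]
  match_scalars <;> ring_nf

theorem theta_pauli1 (h : Trip a b c) : theta h (pauli 1) = s2 a b c := by
  rw [theta_apply]
  simp only [pauli, E, Matrix.of_apply, Matrix.cons_val', Matrix.cons_val_zero, Matrix.cons_val_one,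
    Matrix.cons_val_fin_one]
  match_scalars <;> ring_nf <;> simp [I_sq]

theorem theta_pauli2 (h : Trip a b c) : theta h (pauli 2) = s3 a b c := by
  rw [theta_apply]
  simp only [pauli, E, Matrix.of_apply, Matrix.cons_val', Matrix.cons_val_zero, Matrix.cons_val_one,
    Matrix.cons_val_fin_one]
  match_scalars <;> ring_nf

theorem w_comm_theta (h : Trip a b c) (M : Matrix (Fin 2) (Fin 2) ℂ) :
    w0 a b c * theta h M = theta h M * w0 a b c := by
  rw [theta_apply]
  simp only [E, mul_add, add_mul, mul_sub, sub_mul, smul_add, smul_sub, smul_mul_assoc,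
    mul_smul_comm, w_comm_s1 h, w_comm_s2 h, w_comm_s3 h, one_mul, mul_one]

/-- elements commuting with `a`, `b`, `c` commute with the image of `theta` -/
theorem comm_theta (h : Trip a b c) {x : R} (ha : Commute x (b * c)) (hb : Commute x (c * a))
    (hc : Commute x (a * b)) (M : Matrix (Fin 2) (Fin 2) ℂ) : Commute x (theta h M) := by
  rw [theta_apply]
  have h1 : Commute x (s1 a b c) := ha.smul_right _
  have h2 : Commute x (s2 a b c) := hb.smul_right _
  have h3 : Commute x (s3 a b c) := hc.smul_right _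
  have h0 : Commute x 1 := Commute.one_right x
  refine (((Commute.smul_right ?_ _).add_right (Commute.smul_right ?_ _)).add_right
    (Commute.smul_right ?_ _)).add_right (Commute.smul_right ?_ _)
  · exact (h0.add_right h3).smul_right _
  · exact (h1.add_right (h2.smul_right _)).smul_right _
  · exact (h1.sub_right (h2.smul_right _)).smul_right _
  · exact (h0.sub_right h3).smul_right _

end Theta

end Pool.Agent.X174.Cliff
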