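import Mathlib
import Pool.Agent.X174.Cliff.Theta

set_option autoImplicit false

open Complex Matrix
open scoped Kronecker TensorProduct ComplexOrder

namespace Pool.Agent.X174.Cliff

section Abstract

variable {R : Type*} [Ring R] [Algebra ℂ R] {a b c : R} {ι : Type*} [Fintype ι] [DecidableEq ι]

noncomputable def Theta (h : Trip a b c) (α : Matrix ι ι ℂ →ₐ[ℂ] R)
    (hc : ∀ M N, Commute (α M) (theta h N)) : Matrix (ι × Fin 2) (ι × Fin 2) ℂ →ₐ[ℂ] R :=
  (Algebra.TensorProduct.lift α (theta h) hc).comp (kroneckerAlgEquiv ι (Fin 2) ℂ).symm.toAlgHom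

theorem Theta_kron (h : Trip a b c) (α : Matrix ι ι ℂ →ₐ[ℂ] R)
    (hc : ∀ M N, Commute (α M) (theta h N)) (M : Matrix ι ι ℂ) (N : Matrix (Fin 2) (Fin 2) ℂ) :
    Theta h α hc (M ⊗ₖ N) = α M * theta h N := by
  have h1 : (kroneckerAlgEquiv ι (Fin 2) ℂ).symm (M ⊗ₖ N) = M ⊗ₜ N := by
    rw [AlgEquiv.symm_apply_eq]
    simp
  unfold Theta
  simp only [AlgHom.comp_apply]
  have h2 : (kroneckerAlgEquiv ι (Fin 2) ℂ).symm.toAlgHom (M ⊗ₖ N) = M ⊗ₜ N := h1
  rw [h2, Algebra.TensorProduct.lift_tmul]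

/-- the pencil of the Pauli matrices -/
def pauliPencil (B : Fin 3 → Matrix ι ι ℂ) : Matrix (ι × Fin 2) (ι × Fin 2) ℂ :=
  B 0 ⊗ₖ pauli 0 + B 1 ⊗ₖ pauli 1 + B 2 ⊗ₖ pauli 2

theorem pencil_eq (h : Trip a b c) (α : Matrix ι ι ℂ →ₐ[ℂ] R)
    (hc : ∀ M N, Commute (α M) (theta h N)) (B : Fin 3 → Matrix ι ι ℂ) :
    α (B 0) * a + α (B 1) * b + α (B 2) * c = Theta h α hc (pauliPencil B) * w0 a b c := by
  unfold pauliPencil
  rw [map_add, map_add, Theta_kron, Theta_kron, Theta_kron, theta_pauli0, theta_pauli1,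
    theta_pauli2, add_mul, add_mul, mul_assoc, mul_assoc, mul_assoc, s1_mul_w h, s2_mul_w h,
    s3_mul_w h]

theorem w_comm_Theta (h : Trip a b c) (α : Matrix ι ι ℂ →ₐ[ℂ] R)
    (hc : ∀ M N, Commute (α M) (theta h N)) {x : R} (hx1 : ∀ M, Commute x (α M))
    (hx2 : ∀ N, Commute x (theta h N)) (S : Matrix (ι × Fin 2) (ι × Fin 2) ℂ) :
    Commute x (Theta h α hc S) := by
  unfold Theta
  obtain ⟨t, rfl⟩ := (kroneckerAlgEquiv ι (Fin 2) ℂ).surjective S
  simp only [AlgHom.comp_apply]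
  have : (kroneckerAlgEquiv ι (Fin 2) ℂ).symm.toAlgHom (kroneckerAlgEquiv ι (Fin 2) ℂ t) = t :=
    (kroneckerAlgEquiv ι (Fin 2) ℂ).symm_apply_apply t
  rw [this]
  induction t using TensorProduct.induction_on with
  | zero => simp
  | tmul M N =>
    rw [Algebra.TensorProduct.lift_tmul]
    exact (hx1 M).mul_right (hx2 N)
  | add p q hp hq =>
    rw [map_add]
    exact (hp (by
      exact (kroneckerAlgEquiv ι (Fin 2) ℂ).symm_apply_apply p)).add_right (hq (by
      exact (kroneckerAlgEquiv ι (Fin 2) ℂ).symm_apply_apply q))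

theorem isUnit_pencil (h : Trip a b c) (α : Matrix ι ι ℂ →ₐ[ℂ] R)
    (hα : ∀ M, Commute (w0 a b c) (α M))
    (hc : ∀ M N, Commute (α M) (theta h N)) (S : Matrix (ι × Fin 2) (ι × Fin 2) ℂ) (T : R) (τ : ℂ)
    (hT : T * T = τ • (1 : R)) (hT1 : ∀ M, Commute T (α M)) (hT2 : ∀ N, Commute T (theta h N))
    (hTw : T * w0 a b c = -(w0 a b c * T)) (hU : IsUnit (S * S + τ • (1 : Matrix _ _ ℂ))) :
    IsUnit (Theta h α hc S * w0 a b c - T) := by
  have h1 : Commute (w0 a b c) (Theta h α hc S) :=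
    w_comm_Theta h α hc hα (w_comm_theta h) S
  have h2 : Commute T (Theta h α hc S) := w_comm_Theta h α hc hT1 hT2 S
  have h3 : (Theta h α hc S * w0 a b c - T) ^ 2 = Theta h α hc (S * S + τ • (1 : Matrix _ _ ℂ)) := by
    rw [map_add, map_smul, map_one, map_mul, ← hT, sq, sub_mul, mul_sub, mul_sub]
    have e1 : Theta h α hc S * w0 a b c * (Theta h α hc S * w0 a b c) =
        Theta h α hc S * Theta h α hc S := by
      calc _ = Theta h α hc S * (w0 a b c * Theta h α hc S) * w0 a b c := by noncomm_ring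
        _ = Theta h α hc S * Theta h α hc S * (w0 a b c * w0 a b c) := by
          rw [h1.eq]; noncomm_ring
        _ = _ := by rw [w_sq h, mul_one]
    have e2 : T * (Theta h α hc S * w0 a b c) = -(Theta h α hc S * w0 a b c * T) := by
      rw [← mul_assoc, h2.eq, mul_assoc, hTw, mul_assoc, mul_neg]
    rw [e1, e2]
    abel
  rw [← isUnit_pow_iff (n := 2) (by norm_num), h3]
  exact hU.map _

theorem not_isUnit_pencil [Nontrivial R] [Nonempty ι] (h : Trip a b c) (α : Matrix ι ι ℂ →ₐ[ℂ] R)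
    (hα : ∀ M, Commute (w0 a b c) (α M))
    (hc : ∀ M N, Commute (α M) (theta h N)) (S X : Matrix (ι × Fin 2) (ι × Fin 2) ℂ)
    (hX : X ≠ 0) (hSX : S * X = 0) :
    ¬ IsUnit (Theta h α hc S * w0 a b c) := by
  intro hU
  have h1 : Commute (w0 a b c) (Theta h α hc X) :=
    w_comm_Theta h α hc hα (w_comm_theta h) X
  have h2 : Theta h α hc S * w0 a b c * Theta h α hc X = 0 := by
    rw [mul_assoc, h1.eq, ← mul_assoc, ← map_mul, hSX, map_zero, zero_mul]
  have h3 : Theta h α hc X = 0 := by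
    rwa [hU.mul_right_eq_zero] at h2
  have : IsSimpleRing (Matrix (ι × Fin 2) (ι × Fin 2) ℂ) := inferInstance
  have h4 : Function.Injective (Theta h α hc) := (Theta h α hc).toRingHom.injective
  exact hX (h4 (by rw [h3, map_zero]))

/-- if `S` is Hermitian and `τ > 0` then `S² + τ` is invertible -/
theorem isUnit_sq_add {m : Type*} [Fintype m] [DecidableEq m] (S : Matrix m m ℂ)
    (hS : S.IsHermitian) (τ : ℝ) (hτ : 0 < τ) :
    IsUnit (S * S + (τ : ℂ) • (1 : Matrix m m ℂ)) := by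
  have h1 : (S * S).PosSemidef := by
    have := Matrix.posSemidef_conjTranspose_mul_self S
    rwa [hS.eq] at this
  have h2 : ((τ : ℂ) • (1 : Matrix m m ℂ)).PosDef :=
    Matrix.PosDef.one.smul (by exact_mod_cast hτ)
  exact (Matrix.PosDef.posSemidef_add h1 h2).isUnit

end Abstract

end Pool.Agent.X174.Cliff
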