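import Mathlib
import Pool.Agent.X174.Cliff.Pencil
set_option autoImplicit false
open Complex Matrix
open scoped Kronecker TensorProduct ComplexOrder
namespace Pool.Agent.X174.Cliff
/-- first gadget: `A₁ = diag(1,-9) ⊗ σ₁`, `A₂ = diag(1,-9) ⊗ σ₂`, `A₃ = σ₁ ⊗ 1` -/
def gad : Fin 3 → Matrix (Fin 4) (Fin 4) ℂ
  | 0 => !![0, 1, 0, 0; 1, 0, 0, 0; 0, 0, 0, -9; 0, 0, -9, 0]
  | 1 => !![0, -I, 0, 0; I, 0, 0, 0; 0, 0, 0, 9 * I; 0, 0, -(9 * I), 0]
  | 2 => !![0, 0, 1, 0; 0, 0, 0, 1; 1, 0, 0, 0; 0, 1, 0, 0]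

/-- the pencil of the gadget at the point `(x, y, z)` -/
def gadPencil (x y z : ℂ) : Matrix (Fin 4 × Fin 2) (Fin 4 × Fin 2) ℂ :=
  pauliPencil fun j => gad j - ((![x, y, z] : Fin 3 → ℂ) j) • 1

theorem key (x y z : ℂ) (v : Fin 4 × Fin 2 → ℂ) : ∀ p : Fin 4 × Fin 2, (gadPencil x y z *ᵥ v) p =
      ∑ j : Fin 4, ∑ t : Fin 2, gadPencil x y z p (j, t) * v (j, t) := by
    intro p
    rw [Matrix.mulVec, dotProduct, Fintype.sum_prod_type]

theorem e00 (x y z : ℂ) (v : Fin 4 × Fin 2 → ℂ) : (gadPencil x y z *ᵥ v) (0, 0) =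
    v (2, 0) - z * v (0, 0) - (x - I * y) * v (0, 1) := by
  rw [key]
  simp [Fin.sum_univ_four, gadPencil, pauliPencil, gad, pauli, Matrix.one_apply]
  ring_nf
theorem e01 (x y z : ℂ) (v : Fin 4 × Fin 2 → ℂ) : (gadPencil x y z *ᵥ v) (0, 1) =
    -(x + I * y) * v (0, 0) - (v (2, 1) - z * v (0, 1)) + 2 * v (1, 0) := by
  rw [key]
  simp [Fin.sum_univ_four, gadPencil, pauliPencil, gad, pauli, Matrix.one_apply]
  ring_nf
theorem e10 (x y z : ℂ) (v : Fin 4 × Fin 2 → ℂ) : (gadPencil x y z *ᵥ v) (1, 0) =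
    2 * v (0, 1) + (v (3, 0) - z * v (1, 0)) - (x - I * y) * v (1, 1) := by
  rw [key]
  simp [Fin.sum_univ_four, gadPencil, pauliPencil, gad, pauli, Matrix.one_apply]
  ring_nf
theorem e11 (x y z : ℂ) (v : Fin 4 × Fin 2 → ℂ) : (gadPencil x y z *ᵥ v) (1, 1) =
    -(x + I * y) * v (1, 0) - (v (3, 1) - z * v (1, 1)) := by
  rw [key]
  simp [Fin.sum_univ_four, gadPencil, pauliPencil, gad, pauli, Matrix.one_apply]
  ring_nf
theorem e20 (x y z : ℂ) (v : Fin 4 × Fin 2 → ℂ) : (gadPencil x y z *ᵥ v) (2, 0) =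
    v (0, 0) - z * v (2, 0) - (x - I * y) * v (2, 1) := by
  rw [key]
  simp [Fin.sum_univ_four, gadPencil, pauliPencil, gad, pauli, Matrix.one_apply]
  ring_nf
  rw [I_sq]; ring
theorem e21 (x y z : ℂ) (v : Fin 4 × Fin 2 → ℂ) : (gadPencil x y z *ᵥ v) (2, 1) =
    -(x + I * y) * v (2, 0) - (v (0, 1) - z * v (2, 1)) - 18 * v (3, 0) := by
  rw [key]
  simp [Fin.sum_univ_four, gadPencil, pauliPencil, gad, pauli, Matrix.one_apply]
  ring_nf
  rw [I_sq]; ring
theorem e30 (x y z : ℂ) (v : Fin 4 × Fin 2 → ℂ) : (gadPencil x y z *ᵥ v) (3, 0) =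
    -18 * v (2, 1) + (v (1, 0) - z * v (3, 0)) - (x - I * y) * v (3, 1) := by
  rw [key]
  simp [Fin.sum_univ_four, gadPencil, pauliPencil, gad, pauli, Matrix.one_apply]
  ring_nf
  rw [I_sq]; ring
theorem e31 (x y z : ℂ) (v : Fin 4 × Fin 2 → ℂ) : (gadPencil x y z *ᵥ v) (3, 1) =
    -(x + I * y) * v (3, 0) - (v (1, 1) - z * v (3, 1)) := by
  rw [key]
  simp [Fin.sum_univ_four, gadPencil, pauliPencil, gad, pauli, Matrix.one_apply]
  ring_nf
  rw [I_sq]; ring

theorem gad_zero (x y z : ℝ) (v : Fin 4 × Fin 2 → ℂ) (hv : gadPencil x y z *ᵥ v = 0)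
    (h5 : ¬ (x ^ 2 + y ^ 2 = 5 ∧ z = 0)) (hax : ¬ (x = 0 ∧ y = 0 ∧ z ^ 2 = 1)) : v = 0 := by
  have h10 := e00 x y z v
  have h11 := e20 x y z v
  have h20 := e01 x y z v
  have h21 := e21 x y z v
  have h30 := e10 x y z v
  have h31 := e30 x y z v
  have h40 := e11 x y z v
  have h41 := e31 x y z v
  rw [hv] at h10 h11 h20 h21 h30 h31 h40 h41
  simp only [Pi.zero_apply] at h10 h11 h20 h21 h30 h31 h40 h41
  obtain ⟨a0, ha0⟩ : ∃ t, t = v (0, 0) := ⟨_, rfl⟩
  obtain ⟨a1, ha1⟩ : ∃ t, t = v (2, 0) := ⟨_, rfl⟩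
  obtain ⟨b0, hb0⟩ : ∃ t, t = v (0, 1) := ⟨_, rfl⟩
  obtain ⟨b1, hb1⟩ : ∃ t, t = v (2, 1) := ⟨_, rfl⟩
  obtain ⟨c0, hc0⟩ : ∃ t, t = v (1, 0) := ⟨_, rfl⟩
  obtain ⟨c1, hc1⟩ : ∃ t, t = v (3, 0) := ⟨_, rfl⟩
  obtain ⟨d0, hd0⟩ : ∃ t, t = v (1, 1) := ⟨_, rfl⟩
  obtain ⟨d1, hd1⟩ : ∃ t, t = v (3, 1) := ⟨_, rfl⟩
  rw [← ha0, ← ha1, ← hb0] at h10
  rw [← ha0, ← ha1, ← hb1] at h11
  rw [← ha0, ← hb1, ← hb0, ← hc0] at h20
  rw [← ha1, ← hb1, ← hb0, ← hc1] at h21
  rw [← hb0, ← hc1, ← hc0, ← hd0] at h30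
  rw [← hb1, ← hc0, ← hc1, ← hd1] at h31
  rw [← hc0, ← hd1, ← hd0] at h40
  rw [← hc1, ← hd1, ← hd0] at h41
  have hI := I_sq
  have fin : a0 = 0 ∧ a1 = 0 ∧ b0 = 0 ∧ b1 = 0 ∧ c0 = 0 ∧ c1 = 0 ∧ d0 = 0 ∧ d1 = 0 := by
    by_cases h0 : x = 0 ∧ y = 0
    · obtain ⟨rfl, rfl⟩ := h0
      have hz : ((z : ℂ) ^ 2 - 1) ≠ 0 := by
        intro h
        apply hax
        refine ⟨rfl, rfl, ?_⟩
        have : ((z ^ 2 : ℝ) : ℂ) = ((1 : ℝ) : ℂ) := by
          push_cast
          linear_combination h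
        exact_mod_cast this
      simp only [ofReal_zero, mul_zero, add_zero, sub_zero, neg_zero, zero_mul, zero_sub] at *
      have A0 : a0 = 0 := by
        apply (mul_eq_zero.1 _).resolve_left hz
        linear_combination h11 + z * h10
      have A1 : a1 = 0 := by
        apply (mul_eq_zero.1 _).resolve_left hz
        linear_combination h10 + z * h11
      have D0 : d0 = 0 := by
        apply (mul_eq_zero.1 _).resolve_left hz
        linear_combination -h41 - z * h40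
      have D1 : d1 = 0 := by
        apply (mul_eq_zero.1 _).resolve_left hz
        linear_combination -h40 - z * h41
      have hp : ((z : ℂ) ^ 2 + 35 + 16 * I * z) ≠ 0 := by
        intro h
        have := congrArg Complex.re h
        simp [← ofReal_pow] at this
        nlinarith [sq_nonneg z]
      have hm : ((z : ℂ) ^ 2 + 35 - 16 * I * z) ≠ 0 := by
        intro h
        have := congrArg Complex.re h
        simp [← ofReal_pow] at this
        nlinarith [sq_nonneg z]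
      have r0 : (-z + 2 * I) * (b0 + I * c0) + (b1 + I * c1) = 0 := by
        linear_combination (h20 - I * h30) + 2 * c0 * hI
      have r1 : (b0 + I * c0) + (-z - 18 * I) * (b1 + I * c1) = 0 := by
        linear_combination (h21 - I * h31) - 18 * c1 * hI
      have s0 : (-z - 2 * I) * (b0 - I * c0) + (b1 - I * c1) = 0 := by
        linear_combination (h20 + I * h30) + 2 * c0 * hI
      have s1 : (b0 - I * c0) + (-z + 18 * I) * (b1 - I * c1) = 0 := by
        linear_combination (h21 + I * h31) - 18 * c1 * hI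
      have P0 : b0 + I * c0 = 0 := by
        apply (mul_eq_zero.1 _).resolve_left hp
        linear_combination (-z - 18 * I) * r0 - r1 + 36 * (b0 + I * c0) * hI
      have P1 : b1 + I * c1 = 0 := by
        apply (mul_eq_zero.1 _).resolve_left hp
        linear_combination (-z + 2 * I) * r1 - r0 + 36 * (b1 + I * c1) * hI
      have Q0 : b0 - I * c0 = 0 := by
        apply (mul_eq_zero.1 _).resolve_left hm
        linear_combination (-z + 18 * I) * s0 - s1 + 36 * (b0 - I * c0) * hI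
      have Q1 : b1 - I * c1 = 0 := by
        apply (mul_eq_zero.1 _).resolve_left hm
        linear_combination (-z - 2 * I) * s1 - s0 + 36 * (b1 - I * c1) * hI
      refine ⟨A0, A1, ?_, ?_, ?_, ?_, D0, D1⟩
      · linear_combination (P0 + Q0) / 2
      · linear_combination (P1 + Q1) / 2
      · linear_combination (-I) * (P0 - Q0) / 2 + c0 * hI
      · linear_combination (-I) * (P1 - Q1) / 2 + c1 * hI
    · have hr : 0 < x ^ 2 + y ^ 2 := by
        by_contra hcon
        apply h0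
        constructor <;> nlinarith [sq_nonneg x, sq_nonneg y]
      obtain ⟨ζ, hζ⟩ : ∃ t : ℂ, t = x + I * y := ⟨_, rfl⟩
      obtain ⟨ζ', hζ'⟩ : ∃ t : ℂ, t = x - I * y := ⟨_, rfl⟩
      have hrr : ζ * ζ' = ((x ^ 2 + y ^ 2 : ℝ) : ℂ) := by
        rw [hζ, hζ']; push_cast; linear_combination (-(y : ℂ) ^ 2) * hI
      have hrne : ζ * ζ' ≠ 0 := by
        rw [hrr]; exact_mod_cast hr.ne'
      have hζ0 : ζ ≠ 0 := left_ne_zero_of_mul hrne
      have hζ'0 : ζ' ≠ 0 := right_ne_zero_of_mul hrne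
      rw [← hζ] at h20 h21 h40 h41
      rw [← hζ'] at h10 h11 h30 h31
      have E10 : ζ * ((ζ * ζ' + z ^ 2 + 1) * a0 - 2 * z * a1) + ζ' * (-2 * z * d0 + 2 * d1) = 0 := by
        linear_combination ζ * ζ' * h20 + 2 * ζ' * h40 - ζ * h11 + z * ζ * h10
      have E11 : ζ * ((ζ * ζ' + z ^ 2 + 1) * a1 - 2 * z * a0) + ζ' * (-18 * d0 + 18 * z * d1) = 0 := by
        linear_combination ζ * ζ' * h21 - 18 * ζ' * h41 - ζ * h10 + z * ζ * h11
      have E20 : ζ * (-2 * z * a0 + 2 * a1) - ζ' * ((ζ * ζ' + z ^ 2 + 1) * d0 - 2 * z * d1) = 0 := by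
        linear_combination -(ζ * ζ' * h30 + 2 * ζ * h10 + ζ' * h41 - z * ζ' * h40)
      have E21 : ζ * (-18 * a0 + 18 * z * a1) - ζ' * ((ζ * ζ' + z ^ 2 + 1) * d1 - 2 * z * d0) = 0 := by
        linear_combination -(ζ * ζ' * h31 - 18 * ζ * h11 + ζ' * h40 - z * ζ' * h41)
      obtain ⟨s, hs⟩ : ∃ t : ℝ, t = x ^ 2 + y ^ 2 + z ^ 2 + 1 := ⟨_, rfl⟩
      have hsc : ζ * ζ' + z ^ 2 + 1 = (s : ℂ) := by rw [hrr, hs]; push_cast; ring
      rw [hsc] at E10 E11 E20 E21
      have hdet : s ^ 2 + 32 * z ^ 2 - 36 ≠ 0 ∨ z * (s - 2) ≠ 0 := by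
        by_contra hcon
        push Not at hcon
        obtain ⟨e1, e2⟩ := hcon
        rcases mul_eq_zero.1 e2 with hz | hz
        · apply h5
          rw [hz] at e1
          have : (s - 6) * (s + 6) = 0 := by nlinarith
          rcases mul_eq_zero.1 this with h6 | h6
          · refine ⟨?_, hz⟩
            rw [hz] at hs
            nlinarith
          · exfalso
            nlinarith [sq_nonneg z]
        · have hs2 : s = 2 := by linarith
          rw [hs2] at e1
          have : z ^ 2 = 1 := by nlinarith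
          rw [hs2] at hs
          nlinarith
      have hp : ((s : ℂ) ^ 2 + 32 * z ^ 2 - 36 - 16 * I * (z * (s - 2))) ≠ 0 := by
        intro h
        have h1 := congrArg Complex.re h
        have h2 := congrArg Complex.im h
        simp [← ofReal_pow] at h1 h2
        rcases hdet with h | h
        · exact h (by linarith)
        · rcases h2 with h2 | h2
          · exact h (by rw [h2]; ring)
          · exact h (by rw [h2]; ring)
      have hm : ((s : ℂ) ^ 2 + 32 * z ^ 2 - 36 + 16 * I * (z * (s - 2))) ≠ 0 := by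
        intro h
        have h1 := congrArg Complex.re h
        have h2 := congrArg Complex.im h
        simp [← ofReal_pow] at h1 h2
        rcases hdet with h | h
        · exact h (by linarith)
        · rcases h2 with h2 | h2
          · exact h (by rw [h2]; ring)
          · exact h (by rw [h2]; ring)
      have r0 : (s + 2 * I * z) * (ζ * a0 + I * ζ' * d0) + (-2 * z - 2 * I) * (ζ * a1 + I * ζ' * d1) = 0 := by
        linear_combination E10 - I * E20 + (2 * z * ζ' * d0 - 2 * ζ' * d1) * hI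
      have r1 : (-2 * z + 18 * I) * (ζ * a0 + I * ζ' * d0) + (s - 18 * I * z) * (ζ * a1 + I * ζ' * d1) = 0 := by
        linear_combination E11 - I * E21 + (18 * ζ' * d0 - 18 * z * ζ' * d1) * hI
      have t0 : (s - 2 * I * z) * (ζ * a0 - I * ζ' * d0) + (-2 * z + 2 * I) * (ζ * a1 - I * ζ' * d1) = 0 := by
        linear_combination E10 + I * E20 + (2 * z * ζ' * d0 - 2 * ζ' * d1) * hI
      have t1 : (-2 * z - 18 * I) * (ζ * a0 - I * ζ' * d0) + (s + 18 * I * z) * (ζ * a1 - I * ζ' * d1) = 0 := by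
        linear_combination E11 + I * E21 + (18 * ζ' * d0 - 18 * z * ζ' * d1) * hI
      have P0 : ζ * a0 + I * ζ' * d0 = 0 := by
        apply (mul_eq_zero.1 _).resolve_left hp
        linear_combination (s - 18 * I * z) * r0 - (-2 * z - 2 * I) * r1 + (36 * z ^ 2 - 36) * (ζ * a0 + I * ζ' * d0) * hI
      have P1 : ζ * a1 + I * ζ' * d1 = 0 := by
        apply (mul_eq_zero.1 _).resolve_left hp
        linear_combination (s + 2 * I * z) * r1 - (-2 * z + 18 * I) * r0 + (36 * z ^ 2 - 36) * (ζ * a1 + I * ζ' * d1) * hI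
      have Q0 : ζ * a0 - I * ζ' * d0 = 0 := by
        apply (mul_eq_zero.1 _).resolve_left hm
        linear_combination (s + 18 * I * z) * t0 - (-2 * z + 2 * I) * t1 + (36 * z ^ 2 - 36) * (ζ * a0 - I * ζ' * d0) * hI
      have Q1 : ζ * a1 - I * ζ' * d1 = 0 := by
        apply (mul_eq_zero.1 _).resolve_left hm
        linear_combination (s - 2 * I * z) * t1 - (-2 * z - 18 * I) * t0 + (36 * z ^ 2 - 36) * (ζ * a1 - I * ζ' * d1) * hI
      have A0 : a0 = 0 := by
        apply (mul_eq_zero.1 _).resolve_left hζ0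
        linear_combination (P0 + Q0) / 2
      have A1 : a1 = 0 := by
        apply (mul_eq_zero.1 _).resolve_left hζ0
        linear_combination (P1 + Q1) / 2
      have D0 : d0 = 0 := by
        apply (mul_eq_zero.1 _).resolve_left hζ'0
        linear_combination (-I) * (P0 - Q0) / 2 + ζ' * d0 * hI
      have D1 : d1 = 0 := by
        apply (mul_eq_zero.1 _).resolve_left hζ'0
        linear_combination (-I) * (P1 - Q1) / 2 + ζ' * d1 * hI
      subst A0 A1 D0 D1
      refine ⟨rfl, rfl, ?_, ?_, ?_, ?_, rfl, rfl⟩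
      · apply (mul_eq_zero.1 _).resolve_left hζ'0
        linear_combination h10
      · apply (mul_eq_zero.1 _).resolve_left hζ'0
        linear_combination h11
      · apply (mul_eq_zero.1 _).resolve_left hζ0
        linear_combination h40
      · apply (mul_eq_zero.1 _).resolve_left hζ0
        linear_combination h41
  obtain ⟨f1, f2, f3, f4, f5, f6, f7, f8⟩ := fin
  funext p
  obtain ⟨i, t⟩ := p
  fin_cases i <;> fin_cases t
  exacts [ha0.symm.trans f1, hb0.symm.trans f3, hc0.symm.trans f5, hd0.symm.trans f7,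
    ha1.symm.trans f2, hb1.symm.trans f4, hc1.symm.trans f6, hd1.symm.trans f8]

/-- the kernel vector on the circle -/
theorem gad_kernel (x y : ℝ) (h : x ^ 2 + y ^ 2 = 5) :
    ∃ v : Fin 4 × Fin 2 → ℂ, v ≠ 0 ∧ gadPencil x y (0 : ℝ) *ᵥ v = 0 := by
  have hr : ((x : ℂ) ^ 2 + y ^ 2) = 5 := by exact_mod_cast h
  have hI := I_sq
  let v : Fin 4 × Fin 2 → ℂ := fun p => match p with
    | (0, 0) => (x - I * y)
    | (0, 1) => -3 * I
    | (1, 0) => 3
    | (1, 1) => (x + I * y) * (-I)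
    | (2, 0) => (x - I * y) * (-3 * I)
    | (2, 1) => 1
    | (3, 0) => I
    | (3, 1) => -3 * (x + I * y)
  refine ⟨v, fun hv => ?_, ?_⟩
  · have := congrFun hv (2, 1)
    exact one_ne_zero this
  · funext p
    obtain ⟨i, t⟩ := p
    fin_cases i <;> fin_cases t
    · refine (e00 _ _ _ v).trans ?_
      simp only [v, ofReal_zero, Pi.zero_apply]
      ring
    · refine (e01 _ _ _ v).trans ?_
      simp only [v, ofReal_zero, Pi.zero_apply]
      linear_combination -hr + y ^ 2 * hI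
    · refine (e10 _ _ _ v).trans ?_
      simp only [v, ofReal_zero, Pi.zero_apply]
      linear_combination I * hr - I * y ^ 2 * hI
    · refine (e11 _ _ _ v).trans ?_
      simp only [v, ofReal_zero, Pi.zero_apply]
      ring
    · refine (e20 _ _ _ v).trans ?_
      simp only [v, ofReal_zero, Pi.zero_apply]
      ring
    · refine (e21 _ _ _ v).trans ?_
      simp only [v, ofReal_zero, Pi.zero_apply]
      linear_combination 3 * I * hr - 3 * I * y ^ 2 * hI
    · refine (e30 _ _ _ v).trans ?_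
      simp only [v, ofReal_zero, Pi.zero_apply]
      linear_combination 3 * hr - 3 * y ^ 2 * hI
    · refine (e31 _ _ _ v).trans ?_
      simp only [v, ofReal_zero, Pi.zero_apply]
      ring

end Pool.Agent.X174.Cliff
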