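import Mathlib
import Pool.Agent.X174.Cliff.Kernel
set_option autoImplicit false
open Complex Matrix
open scoped Kronecker TensorProduct ComplexOrder
namespace Pool.Agent.X174.Cliff

section Swap

variable {ι : Type*} [Fintype ι] [DecidableEq ι]

/-- the intertwiner `1 ⊗ (σ₂ - σ₃)` -/
def W : Matrix (ι × Fin 2) (ι × Fin 2) ℂ := (1 : Matrix ι ι ℂ) ⊗ₖ (pauli 1 - pauli 2)

theorem W_mul_W : (W : Matrix (ι × Fin 2) (ι × Fin 2) ℂ) * W = (2 : ℂ) • 1 := by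
  unfold W
  rw [← Matrix.mul_kronecker_mul, mul_one]
  have : (pauli 1 - pauli 2) * (pauli 1 - pauli 2) = (2 : ℂ) • (1 : Matrix (Fin 2) (Fin 2) ℂ) := by
    ext i j
    fin_cases i <;> fin_cases j <;> simp [pauli, Matrix.mul_apply, Fin.sum_univ_two] <;> ring
  rw [this, Matrix.kronecker_smul, Matrix.one_kronecker_one]

theorem W_pencil (C : Fin 3 → Matrix ι ι ℂ) :
    W * pauliPencil C = -(pauliPencil ![C 0, C 2, C 1] * W) := by
  unfold W pauliPencil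
  simp only [mul_add, add_mul, ← Matrix.mul_kronecker_mul, one_mul, mul_one]
  have h0 : (pauli 1 - pauli 2) * pauli 0 = -(pauli 0 * (pauli 1 - pauli 2)) := by
    ext i j
    fin_cases i <;> fin_cases j <;> simp [pauli, Matrix.mul_apply, Fin.sum_univ_two]
  have h1 : (pauli 1 - pauli 2) * pauli 1 = -(pauli 2 * (pauli 1 - pauli 2)) := by
    ext i j
    fin_cases i <;> fin_cases j <;> simp [pauli, Matrix.mul_apply, Fin.sum_univ_two]
  have h2 : (pauli 1 - pauli 2) * pauli 2 = -(pauli 1 * (pauli 1 - pauli 2)) := by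
    ext i j
    fin_cases i <;> fin_cases j <;> simp [pauli, Matrix.mul_apply, Fin.sum_univ_two]
  rw [h0, h1, h2]
  simp only [Matrix.cons_val_zero, Matrix.cons_val_one, Matrix.cons_val]
  have hneg : ∀ (M : Matrix ι ι ℂ) (N : Matrix (Fin 2) (Fin 2) ℂ), M ⊗ₖ (-N) = -(M ⊗ₖ N) := by
    intro M N
    ext ⟨i, s⟩ ⟨j, t⟩
    simp [Matrix.kroneckerMap_apply]
  rw [hneg, hneg, hneg]
  abel

theorem swap_zero (C : Fin 3 → Matrix ι ι ℂ) (hC : ∀ v, pauliPencil C *ᵥ v = 0 → v = 0)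
    (v : ι × Fin 2 → ℂ) (hv : pauliPencil ![C 0, C 2, C 1] *ᵥ v = 0) : v = 0 := by
  have h1 : (2 : ℂ) • (pauliPencil C *ᵥ (W *ᵥ v)) = 0 := by
    have e : (W : Matrix (ι × Fin 2) (ι × Fin 2) ℂ) * W * pauliPencil C * W =
        -(W * pauliPencil ![C 0, C 2, C 1] * (W * W)) := by
      rw [mul_assoc W W, W_pencil]
      noncomm_ring
    rw [W_mul_W] at e
    have := congrArg (fun M => M *ᵥ v) e
    simp only [Matrix.smul_mul, one_mul, Matrix.mul_smul, mul_one, Matrix.neg_mulVec,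
      Matrix.smul_mulVec, ← Matrix.mulVec_mulVec, hv, Matrix.mulVec_zero, smul_zero,
      neg_zero] at this
    exact this
  have h2 : pauliPencil C *ᵥ (W *ᵥ v) = 0 := (smul_eq_zero.1 h1).resolve_left two_ne_zero
  have h3 := hC _ h2
  have h4 : (W : Matrix (ι × Fin 2) (ι × Fin 2) ℂ) *ᵥ (W *ᵥ v) = 0 := by
    rw [h3, Matrix.mulVec_zero]
  rw [Matrix.mulVec_mulVec, W_mul_W, Matrix.smul_mulVec, Matrix.one_mulVec] at h4
  exact (smul_eq_zero.1 h4).resolve_left two_ne_zero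

theorem swap_ker (C : Fin 3 → Matrix ι ι ℂ) (v : ι × Fin 2 → ℂ) (hv0 : v ≠ 0)
    (hv : pauliPencil C *ᵥ v = 0) :
    ∃ u, u ≠ 0 ∧ pauliPencil ![C 0, C 2, C 1] *ᵥ u = 0 := by
  refine ⟨W *ᵥ v, fun h => hv0 ?_, ?_⟩
  · have h4 : (W : Matrix (ι × Fin 2) (ι × Fin 2) ℂ) *ᵥ (W *ᵥ v) = 0 := by
      rw [h, Matrix.mulVec_zero]
    rw [Matrix.mulVec_mulVec, W_mul_W, Matrix.smul_mulVec, Matrix.one_mulVec] at h4
    exact (smul_eq_zero.1 h4).resolve_left two_ne_zero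
  · have := W_pencil C
    have h5 : pauliPencil ![C 0, C 2, C 1] * W = -(W * pauliPencil C) := by
      rw [this, neg_neg]
    rw [Matrix.mulVec_mulVec, h5, Matrix.neg_mulVec, ← Matrix.mulVec_mulVec, hv,
      Matrix.mulVec_zero, neg_zero]

end Swap

section Sum

variable {ι κ : Type*} [Fintype ι] [DecidableEq ι] [Fintype κ] [DecidableEq κ]

theorem sum_inl (C : Fin 3 → Matrix ι ι ℂ) (D : Fin 3 → Matrix κ κ ℂ)
    (v : (ι ⊕ κ) × Fin 2 → ℂ) (i : ι) (t : Fin 2) :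
    (pauliPencil (fun j => fromBlocks (C j) 0 0 (D j)) *ᵥ v) (Sum.inl i, t) =
      (pauliPencil C *ᵥ (fun p => v (Sum.inl p.1, p.2))) (i, t) := by
  simp only [Matrix.mulVec, dotProduct, Fintype.sum_prod_type, Fintype.sum_sum_type, pauliPencil,
    Matrix.add_apply, Matrix.kroneckerMap_apply, fromBlocks_apply₁₁, fromBlocks_apply₁₂,
    Matrix.zero_apply, zero_mul, add_zero, Finset.sum_const_zero]

theorem sum_inr (C : Fin 3 → Matrix ι ι ℂ) (D : Fin 3 → Matrix κ κ ℂ)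
    (v : (ι ⊕ κ) × Fin 2 → ℂ) (i : κ) (t : Fin 2) :
    (pauliPencil (fun j => fromBlocks (C j) 0 0 (D j)) *ᵥ v) (Sum.inr i, t) =
      (pauliPencil D *ᵥ (fun p => v (Sum.inr p.1, p.2))) (i, t) := by
  simp only [Matrix.mulVec, dotProduct, Fintype.sum_prod_type, Fintype.sum_sum_type, pauliPencil,
    Matrix.add_apply, Matrix.kroneckerMap_apply, fromBlocks_apply₂₁, fromBlocks_apply₂₂,
    Matrix.zero_apply, zero_mul, add_zero, zero_add, Finset.sum_const_zero]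

theorem sum_zero (C : Fin 3 → Matrix ι ι ℂ) (D : Fin 3 → Matrix κ κ ℂ)
    (hC : ∀ v, pauliPencil C *ᵥ v = 0 → v = 0) (hD : ∀ v, pauliPencil D *ᵥ v = 0 → v = 0)
    (v : (ι ⊕ κ) × Fin 2 → ℂ)
    (hv : pauliPencil (fun j => fromBlocks (C j) 0 0 (D j)) *ᵥ v = 0) : v = 0 := by
  have h1 := hC (fun p => v (Sum.inl p.1, p.2)) (by
    funext ⟨i, t⟩
    rw [← sum_inl C D v, hv]; rfl)
  have h2 := hD (fun p => v (Sum.inr p.1, p.2)) (by
    funext ⟨i, t⟩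
    rw [← sum_inr C D v, hv]; rfl)
  funext ⟨i, t⟩
  rcases i with i | i
  · exact congrFun h1 (i, t)
  · exact congrFun h2 (i, t)

theorem sum_ker_left (C : Fin 3 → Matrix ι ι ℂ) (D : Fin 3 → Matrix κ κ ℂ)
    (h : ∃ v, v ≠ 0 ∧ pauliPencil C *ᵥ v = 0) :
    ∃ v, v ≠ 0 ∧ pauliPencil (fun j => fromBlocks (C j) 0 0 (D j)) *ᵥ v = 0 := by
  obtain ⟨v, hv0, hv⟩ := h
  refine ⟨fun p => Sum.elim (fun i => v (i, p.2)) (fun _ => 0) p.1, fun h => hv0 ?_, ?_⟩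
  · funext ⟨i, t⟩
    exact congrFun h (Sum.inl i, t)
  · funext ⟨i, t⟩
    rcases i with i | i
    · rw [sum_inl]
      exact congrFun hv (i, t)
    · rw [sum_inr]
      exact congrFun (Matrix.mulVec_zero _) (i, t)

theorem sum_ker_right (C : Fin 3 → Matrix ι ι ℂ) (D : Fin 3 → Matrix κ κ ℂ)
    (h : ∃ v, v ≠ 0 ∧ pauliPencil D *ᵥ v = 0) :
    ∃ v, v ≠ 0 ∧ pauliPencil (fun j => fromBlocks (C j) 0 0 (D j)) *ᵥ v = 0 := by
  obtain ⟨v, hv0, hv⟩ := h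
  refine ⟨fun p => Sum.elim (fun _ => 0) (fun i => v (i, p.2)) p.1, fun h => hv0 ?_, ?_⟩
  · funext ⟨i, t⟩
    exact congrFun h (Sum.inr i, t)
  · funext ⟨i, t⟩
    rcases i with i | i
    · rw [sum_inl]
      exact congrFun (Matrix.mulVec_zero _) (i, t)
    · rw [sum_inr]
      exact congrFun hv (i, t)

end Sum

/-- the three `8 × 8` matrices, as block matrices -/
def blk : Fin 3 → Matrix (Fin 4 ⊕ Fin 4) (Fin 4 ⊕ Fin 4) ℂ
  | 0 => fromBlocks (gad 0) 0 0 (gad 0 + (2 : ℂ) • 1)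
  | 1 => fromBlocks (gad 1) 0 0 (gad 2)
  | 2 => fromBlocks (gad 2) 0 0 (gad 1)

/-- their pencil -/
def blkPencil (x y z : ℂ) : Matrix ((Fin 4 ⊕ Fin 4) × Fin 2) ((Fin 4 ⊕ Fin 4) × Fin 2) ℂ :=
  pauliPencil fun j => blk j - ((![x, y, z] : Fin 3 → ℂ) j) • 1

theorem blkPencil_eq (x y z : ℂ) : blkPencil x y z = pauliPencil (fun j => fromBlocks
    (gad j - ((![x, y, z] : Fin 3 → ℂ) j) • 1) 0 0
    ((![gad 0 - (x - 2) • 1, gad 2 - y • 1, gad 1 - z • 1] :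
      Fin 3 → Matrix (Fin 4) (Fin 4) ℂ) j)) := by
  unfold blkPencil
  congr 1
  funext j
  have h1 : (1 : Matrix (Fin 4 ⊕ Fin 4) (Fin 4 ⊕ Fin 4) ℂ) = fromBlocks 1 0 0 1 :=
    fromBlocks_one.symm
  rw [h1, fromBlocks_smul]
  fin_cases j
  · simp only [blk, Fin.zero_eta, sub_eq_add_neg, fromBlocks_neg, fromBlocks_add, smul_zero,
      neg_zero, add_zero, Matrix.cons_val_zero]
    congr 1
    module
  · simp only [blk, Fin.mk_one, sub_eq_add_neg, fromBlocks_neg, fromBlocks_add, smul_zero,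
      neg_zero, add_zero, Matrix.cons_val_one, Matrix.cons_val_zero]
  · simp only [blk, Fin.reduceFinMk, sub_eq_add_neg, fromBlocks_neg, fromBlocks_add, smul_zero,
      neg_zero, add_zero, Matrix.cons_val]

/-- the first circle -/
def onA (x y z : ℝ) : Prop := x ^ 2 + y ^ 2 = 5 ∧ z = 0

/-- the second circle -/
def onB (x y z : ℝ) : Prop := (x - 2) ^ 2 + z ^ 2 = 5 ∧ y = 0

/-- the shifted gadget -/
def gadC (x y z : ℂ) : Fin 3 → Matrix (Fin 4) (Fin 4) ℂ :=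
  fun j => gad j - ((![x, y, z] : Fin 3 → ℂ) j) • 1

theorem gad'_eq (x y z : ℂ) : ((![gad 0 - (x - 2) • 1, gad 2 - y • 1, gad 1 - z • 1] :
      Fin 3 → Matrix (Fin 4) (Fin 4) ℂ)) =
    ![gadC (x - 2) z y 0, gadC (x - 2) z y 2, gadC (x - 2) z y 1] := by
  unfold gadC
  simp

theorem blkPencil_eq' (x y z : ℂ) : blkPencil x y z = pauliPencil (fun j => fromBlocks
    (gadC x y z j) 0 0
    ((![gadC (x - 2) z y 0, gadC (x - 2) z y 2, gadC (x - 2) z y 1] :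
      Fin 3 → Matrix (Fin 4) (Fin 4) ℂ) j)) := by
  rw [blkPencil_eq, gad'_eq]
  rfl

theorem blk_zero (x y z : ℝ) (hA : ¬ onA x y z) (hB : ¬ onB x y z)
    (v : (Fin 4 ⊕ Fin 4) × Fin 2 → ℂ) (hv : blkPencil x y z *ᵥ v = 0) : v = 0 := by
  rw [blkPencil_eq'] at hv
  have h1 : ∀ u, pauliPencil (gadC x y z) *ᵥ u = 0 → u = 0 := by
    intro u hu
    refine gad_zero x y z u hu hA ?_
    rintro ⟨rfl, rfl, hz⟩
    exact hB ⟨by rw [hz]; norm_num, rfl⟩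
  have h2 : ∀ u, pauliPencil (gadC ((x : ℂ) - 2) z y) *ᵥ u = 0 → u = 0 := by
    intro u hu
    obtain ⟨x', hx'⟩ : ∃ t : ℝ, t = x - 2 := ⟨_, rfl⟩
    have hxc : (x : ℂ) - 2 = (x' : ℂ) := by rw [hx']; push_cast; rfl
    rw [hxc] at hu
    refine gad_zero x' z y u hu ?_ ?_
    · rw [hx']
      exact hB
    · rintro ⟨hx, hz, hy⟩
      refine hA ⟨?_, hz⟩
      have : x = 2 := by linarith
      rw [this, hy]; norm_num
  have h3 := swap_zero (gadC ((x : ℂ) - 2) z y) h2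
  exact sum_zero (gadC x y z) _ h1 h3 v hv

theorem blk_kerA (x y z : ℝ) (hA : onA x y z) :
    ∃ v, v ≠ 0 ∧ blkPencil x y z *ᵥ v = 0 := by
  obtain ⟨h, hz⟩ := hA
  rw [blkPencil_eq']
  rw [hz]
  exact sum_ker_left _ _ (gad_kernel x y h)

theorem blk_kerB (x y z : ℝ) (hB : onB x y z) :
    ∃ v, v ≠ 0 ∧ blkPencil x y z *ᵥ v = 0 := by
  obtain ⟨h, hy⟩ := hB
  rw [blkPencil_eq']
  refine sum_ker_right _ _ ?_
  obtain ⟨x', hx'⟩ : ∃ t : ℝ, t = x - 2 := ⟨_, rfl⟩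
  have hxc : (x : ℂ) - 2 = (x' : ℂ) := by rw [hx']; push_cast; rfl
  rw [hxc]
  obtain ⟨v, hv0, hv⟩ := gad_kernel x' z (by rw [hx']; exact h)
  rw [hy]
  exact swap_ker (gadC x' z (0 : ℝ)) v hv0 hv

end Pool.Agent.X174.Cliff
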