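import Mathlib
import Pool.Agent.X174.Cliff.Sum
set_option autoImplicit false
open Complex Matrix
open scoped Kronecker TensorProduct ComplexOrder
namespace Pool.Agent.X174.Cliff

section Abs

variable {R : Type*} [Ring R] [Algebra ℂ R] {m : ℕ}

/-- the first three indices -/
abbrev i0 : Fin (m + 3) := 0
abbrev i1 : Fin (m + 3) := Fin.succ 0
abbrev i2 : Fin (m + 3) := Fin.succ (Fin.succ 0)

theorem anti_of_orth {d : ℕ} {f : (Fin d → ℂ) →ₗ[ℂ] R}
    (hf : ∀ u, f u * f u = (∑ i, u i * u i) • (1 : R)) (u w : Fin d → ℂ)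
    (h : ∑ i, u i * w i = 0) : f u * f w = -(f w * f u) := by
  have h1 := hf (u + w)
  rw [map_add, add_mul, mul_add, mul_add, hf u, hf w] at h1
  have h2 : (∑ i, (u + w) i * (u + w) i) = (∑ i, u i * u i) + (∑ i, w i * w i) := by
    calc _ = ∑ i, (u i * u i + w i * w i + 2 * (u i * w i)) := by
          refine Finset.sum_congr rfl fun i _ => ?_
          simp only [Pi.add_apply]
          ring
      _ = _ := by rw [Finset.sum_add_distrib, Finset.sum_add_distrib, ← Finset.mul_sum, h,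
          mul_zero, add_zero]
  rw [h2, add_smul] at h1
  have h3 : f u * f w + f w * f u = 0 := by
    have : ((∑ i, u i * u i) • (1 : R) + f u * f w + (f w * f u + (∑ i, w i * w i) • (1 : R))) =
      ((∑ i, u i * u i) • (1 : R) + (∑ i, w i * w i) • (1 : R)) + (f u * f w + f w * f u) := by
      abel
    rw [this] at h1
    exact add_eq_left.1 h1
  exact eq_neg_of_add_eq_zero_left h3

/-- basis vectors -/
def bv {d : ℕ} (j : Fin d) : Fin d → ℂ := Pi.single j 1

theorem f_bv_sq {d : ℕ} {f : (Fin d → ℂ) →ₗ[ℂ] R}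
    (hf : ∀ u, f u * f u = (∑ i, u i * u i) • (1 : R)) (j : Fin d) : f (bv j) * f (bv j) = 1 := by
  rw [hf]
  simp [bv, Pi.single_apply]

theorem f_anti {d : ℕ} {f : (Fin d → ℂ) →ₗ[ℂ] R}
    (hf : ∀ u, f u * f u = (∑ i, u i * u i) • (1 : R)) (u : Fin d → ℂ) (k : Fin d) (h : u k = 0) :
    f u * f (bv k) = -(f (bv k) * f u) := by
  refine anti_of_orth hf _ _ ?_
  simp [bv, Pi.single_apply, h]

theorem f_bv_anti {d : ℕ} {f : (Fin d → ℂ) →ₗ[ℂ] R}
    (hf : ∀ u, f u * f u = (∑ i, u i * u i) • (1 : R)) (j k : Fin d) (h : j ≠ k) :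
    f (bv j) * f (bv k) = -(f (bv k) * f (bv j)) := by
  refine f_anti hf _ _ ?_
  simp [bv, h.symm]

theorem f_eq_sum {d : ℕ} (f : (Fin d → ℂ) →ₗ[ℂ] R) (u : Fin d → ℂ) :
    f u = ∑ j, u j • f (bv j) := by
  rw [LinearMap.pi_apply_eq_sum_univ]
  refine Finset.sum_congr rfl fun j _ => ?_
  congr 2
  funext k
  simp [bv, Pi.single_apply, eq_comm]

theorem trip {f : (Fin (m + 3) → ℂ) →ₗ[ℂ] R}
    (hf : ∀ u, f u * f u = (∑ i, u i * u i) • (1 : R)) :
    Trip (f (bv i0)) (f (bv i1)) (f (bv i2)) := by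
  have h01 : (i1 : Fin (m + 3)) ≠ i0 := Fin.succ_ne_zero _
  have h02 : (i2 : Fin (m + 3)) ≠ i0 := Fin.succ_ne_zero _
  have h12 : (i2 : Fin (m + 3)) ≠ i1 := fun h => Fin.succ_ne_zero _ (Fin.succ_injective _ h)
  exact ⟨f_bv_sq hf _, f_bv_sq hf _, f_bv_sq hf _, f_bv_anti hf _ _ h01, f_bv_anti hf _ _ h02,
    f_bv_anti hf _ _ h12⟩

/-- the vector part of the remaining coordinates -/
noncomputable def tlR (lam : Fin (m + 3) → ℝ) : Fin (m + 3) → ℝ :=
  Fin.cons 0 (Fin.cons 0 (Fin.cons 0 (fun k : Fin m => lam k.succ.succ.succ)))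

/-- complex version -/
noncomputable def tlC (lam : Fin (m + 3) → ℝ) : Fin (m + 3) → ℂ := fun j => (tlR lam j : ℂ)

theorem tlR0 (lam : Fin (m + 3) → ℝ) : tlR lam i0 = 0 := rfl
theorem tlR1 (lam : Fin (m + 3) → ℝ) : tlR lam i1 = 0 := rfl
theorem tlR2 (lam : Fin (m + 3) → ℝ) : tlR lam i2 = 0 := rfl
theorem tlR3 (lam : Fin (m + 3) → ℝ) (k : Fin m) :
    tlR lam k.succ.succ.succ = lam k.succ.succ.succ := rfl

theorem tlC0 (lam : Fin (m + 3) → ℝ) : tlC lam i0 = 0 := by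
  unfold tlC; rw [tlR0, ofReal_zero]
theorem tlC1 (lam : Fin (m + 3) → ℝ) : tlC lam i1 = 0 := by
  unfold tlC; rw [tlR1, ofReal_zero]
theorem tlC2 (lam : Fin (m + 3) → ℝ) : tlC lam i2 = 0 := by
  unfold tlC; rw [tlR2, ofReal_zero]
theorem tlC3 (lam : Fin (m + 3) → ℝ) (k : Fin m) :
    tlC lam k.succ.succ.succ = (lam k.succ.succ.succ : ℂ) := rfl

theorem T_sq {f : (Fin (m + 3) → ℂ) →ₗ[ℂ] R}
    (hf : ∀ u, f u * f u = (∑ i, u i * u i) • (1 : R)) (lam : Fin (m + 3) → ℝ) :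
    f (tlC lam) * f (tlC lam) = ((∑ j, tlR lam j ^ 2 : ℝ) : ℂ) • (1 : R) := by
  rw [hf]
  congr 1
  push_cast
  exact Finset.sum_congr rfl fun j _ => (sq _).symm

theorem comm_of_anti {R : Type*} [Ring R] {t x y : R} (hx : t * x = -(x * t))
    (hy : t * y = -(y * t)) : Commute t (x * y) := by
  unfold Commute SemiconjBy
  calc t * (x * y) = (t * x) * y := by noncomm_ring
    _ = -(x * (t * y)) := by rw [hx]; noncomm_ring
    _ = x * y * t := by rw [hy]; noncomm_ring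

theorem anti_w {a b c t : R} (ha : t * a = -(a * t)) (hb : t * b = -(b * t))
    (hc : t * c = -(c * t)) : t * w0 a b c = -(w0 a b c * t) := by
  have h : t * (a * b * c) = -(a * b * c * t) := by
    rw [← mul_assoc, (comm_of_anti ha hb).eq, mul_assoc, hc, mul_neg, ← mul_assoc]
  unfold w0
  rw [mul_smul_comm, smul_mul_assoc, h, smul_neg]

theorem hcc {f : (Fin (m + 3) → ℂ) →ₗ[ℂ] R}
    (hf : ∀ u, f u * f u = (∑ i, u i * u i) • (1 : R)) {ι : Type*} [Fintype ι] [DecidableEq ι]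
    {α : Matrix ι ι ℂ →ₐ[ℂ] R} (hα : ∀ M u, Commute (f u) (α M)) (M : Matrix ι ι ℂ)
    (N : Matrix (Fin 2) (Fin 2) ℂ) :
    Commute (α M) (theta (trip (m := m) hf) N) := by
  refine comm_theta _ ?_ ?_ ?_ N
  · exact ((hα M _).symm).mul_right ((hα M _).symm)
  · exact ((hα M _).symm).mul_right ((hα M _).symm)
  · exact ((hα M _).symm).mul_right ((hα M _).symm)

theorem w_comm_alp {f : (Fin (m + 3) → ℂ) →ₗ[ℂ] R} {ι : Type*} [Fintype ι] [DecidableEq ι]
    {α : Matrix ι ι ℂ →ₐ[ℂ] R} (hα : ∀ M u, Commute (f u) (α M)) (M : Matrix ι ι ℂ) :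
    Commute (w0 (f (bv i0)) (f (bv i1)) (f (bv i2))) (α M) := by
  unfold w0
  exact (((hα M _).mul_left (hα M _)).mul_left (hα M _)).smul_left _

theorem pauliPencil_herm {ι : Type*} [Fintype ι] [DecidableEq ι] (B : Fin 3 → Matrix ι ι ℂ)
    (hB : ∀ j, (B j).IsHermitian) : (pauliPencil B).IsHermitian := by
  have hp : ∀ j, (pauli j).IsHermitian := by
    intro j
    ext i k
    fin_cases j <;> fin_cases i <;> fin_cases k <;> simp [pauli, Matrix.conjTranspose_apply]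
  unfold pauliPencil Matrix.IsHermitian
  rw [Matrix.conjTranspose_add, Matrix.conjTranspose_add, Matrix.conjTranspose_kronecker,
    Matrix.conjTranspose_kronecker, Matrix.conjTranspose_kronecker, hB 0, hB 1, hB 2, hp 0, hp 1,
    hp 2]

theorem gad_herm (j : Fin 3) : (gad j).IsHermitian := by
  ext i k
  fin_cases j <;> fin_cases i <;> fin_cases k <;> simp [gad, Matrix.conjTranspose_apply]

theorem smul_one_herm {ι : Type*} [Fintype ι] [DecidableEq ι] (t : ℝ) :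
    ((t : ℂ) • (1 : Matrix ι ι ℂ)).IsHermitian := by
  unfold Matrix.IsHermitian
  rw [Matrix.conjTranspose_smul, Matrix.conjTranspose_one]
  simp

theorem blk_herm (j : Fin 3) : (blk j).IsHermitian := by
  have h0 : ((0 : Matrix (Fin 4) (Fin 4) ℂ))ᴴ = 0 := Matrix.conjTranspose_zero
  have h2 : ((2 : ℂ) • (1 : Matrix (Fin 4) (Fin 4) ℂ)).IsHermitian := by
    have := smul_one_herm (ι := Fin 4) 2
    rwa [ofReal_ofNat] at this
  fin_cases j
  · exact Matrix.IsHermitian.fromBlocks (gad_herm 0) h0 ((gad_herm 0).add h2)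
  · exact Matrix.IsHermitian.fromBlocks (gad_herm 1) h0 (gad_herm 2)
  · exact Matrix.IsHermitian.fromBlocks (gad_herm 2) h0 (gad_herm 1)

theorem blkPencil_herm (x y z : ℝ) : (blkPencil x y z).IsHermitian := by
  unfold blkPencil
  refine pauliPencil_herm _ fun j => (blk_herm j).sub ?_
  fin_cases j
  · exact smul_one_herm x
  · exact smul_one_herm y
  · exact smul_one_herm z

theorem blk_isUnit (x y z : ℝ) (hA : ¬ onA x y z) (hB : ¬ onB x y z) :
    IsUnit (blkPencil x y z) := by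
  rw [← Matrix.mulVec_injective_iff_isUnit]
  intro u v huv
  have h : blkPencil x y z *ᵥ (u - v) = 0 := by
    rw [Matrix.mulVec_sub]
    exact sub_eq_zero.2 huv
  exact sub_eq_zero.1 (blk_zero x y z hA hB _ h)

/-- abstract spectrum computation -/
theorem abs_spec [Nontrivial R] {f : (Fin (m + 3) → ℂ) →ₗ[ℂ] R}
    (hf : ∀ u, f u * f u = (∑ i, u i * u i) • (1 : R))
    {α : Matrix (Fin 4 ⊕ Fin 4) (Fin 4 ⊕ Fin 4) ℂ →ₐ[ℂ] R} (hα : ∀ M u, Commute (f u) (α M))
    (lam : Fin (m + 3) → ℝ) :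
    ¬ IsUnit (α (blk 0 - (lam i0 : ℂ) • 1) * f (bv i0) + α (blk 1 - (lam i1 : ℂ) • 1) * f (bv i1) +
      α (blk 2 - (lam i2 : ℂ) • 1) * f (bv i2) - f (tlC lam)) ↔
    (onA (lam i0) (lam i1) (lam i2) ∨ onB (lam i0) (lam i1) (lam i2)) ∧
      ∀ k : Fin m, lam k.succ.succ.succ = 0 := by
  have hp : α (blk 0 - (lam i0 : ℂ) • 1) * f (bv i0) + α (blk 1 - (lam i1 : ℂ) • 1) * f (bv i1) +
      α (blk 2 - (lam i2 : ℂ) • 1) * f (bv i2) =
      Theta (trip (m := m) hf) α (hcc hf hα) (blkPencil (lam i0) (lam i1) (lam i2)) *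
        w0 (f (bv i0)) (f (bv i1)) (f (bv i2)) := by
    unfold blkPencil
    rw [← pencil_eq]
    simp only [Matrix.cons_val_zero, Matrix.cons_val_one, Matrix.cons_val]
  rw [hp]
  by_cases ht : ∀ k : Fin m, lam k.succ.succ.succ = 0
  · have hT : f (tlC lam) = 0 := by
      rw [f_eq_sum, Fin.sum_univ_succ, Fin.sum_univ_succ, Fin.sum_univ_succ, tlC0, tlC1, tlC2]
      simp [tlC3, ht]
    rw [hT, sub_zero]
    constructor
    · intro h
      refine ⟨?_, ht⟩
      by_contra hcon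
      push Not at hcon
      refine h (((blk_isUnit _ _ _ hcon.1 hcon.2).map _).mul ?_)
      exact isUnit_iff_exists.2 ⟨_, w_sq (trip hf), w_sq (trip hf)⟩
    · rintro ⟨h, -⟩
      obtain ⟨v, hv0, hv⟩ : ∃ v, v ≠ 0 ∧ blkPencil (lam i0) (lam i1) (lam i2) *ᵥ v = 0 := by
        rcases h with h | h
        · exact blk_kerA _ _ _ h
        · exact blk_kerB _ _ _ h
      refine not_isUnit_pencil _ _ (w_comm_alp hα) _ _ (Matrix.of fun i _ => v i) ?_ ?_
      · intro h
        apply hv0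
        funext p
        exact congrFun (congrFun h p) (Sum.inl 0, 0)
      · ext p q
        exact congrFun hv p
  · have hτ : 0 < ∑ j, tlR lam j ^ 2 := by
      push Not at ht
      obtain ⟨k, hk⟩ := ht
      refine Finset.sum_pos' (fun j _ => sq_nonneg _) ⟨k.succ.succ.succ, Finset.mem_univ _, ?_⟩
      rw [tlR3]
      positivity
    refine ⟨fun h => absurd ?_ h, fun h => absurd h.2 ht⟩
    have a0 := f_anti hf (tlC lam) i0 (tlC0 lam)
    have a1 := f_anti hf (tlC lam) i1 (tlC1 lam)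
    have a2 := f_anti hf (tlC lam) i2 (tlC2 lam)
    exact isUnit_pencil _ _ (w_comm_alp hα) _ _ _ _ (T_sq hf lam) (fun M => hα M _)
      (fun N => comm_theta _ (comm_of_anti a1 a2) (comm_of_anti a2 a0) (comm_of_anti a0 a1) N)
      (anti_w a0 a1 a2) (isUnit_sq_add _ (blkPencil_herm _ _ _) _ hτ)

end Abs

end Pool.Agent.X174.Cliff
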