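import Mathlib
import Pool.Agent.X174.Cliff.Spec
import Pool.Agent.X174.Cliff.Defs
set_option autoImplicit false
open Complex Matrix
open scoped Kronecker TensorProduct ComplexOrder
namespace Pool.Agent.X174.Cliff

theorem normSq_apply (d : ℕ) (u : Fin d → ℂ) : normSq d u = ∑ i, u i * u i := by
  simp [normSq, QuadraticMap.weightedSumSquares_apply]

/-- the ambient algebra -/
abbrev Amb (d n : ℕ) : Type := Matrix (Fin n) (Fin n) ℂ ⊗[ℂ] Cl d

theorem amb_nontrivial (d : ℕ) : Nontrivial (Amb d 8) := by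
  have : Function.Injective (algebraMap ℂ (Matrix (Fin 8) (Fin 8) ℂ)) :=
    (algebraMap ℂ (Matrix (Fin 8) (Fin 8) ℂ)).injective
  have h := Algebra.TensorProduct.includeRight_injective (R := ℂ)
    (A := Matrix (Fin 8) (Fin 8) ℂ) (B := Cl d) this
  exact h.nontrivial

/-- the linear map -/
noncomputable def ff (d : ℕ) : (Fin d → ℂ) →ₗ[ℂ] Amb d 8 :=
  (Algebra.TensorProduct.includeRight (R := ℂ) (A := Matrix (Fin 8) (Fin 8) ℂ)
    (B := Cl d)).toLinearMap ∘ₗ CliffordAlgebra.ι (normSq d)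

theorem ff_apply (d : ℕ) (u : Fin d → ℂ) : ff d u =
    (Algebra.TensorProduct.includeRight (R := ℂ) (A := Matrix (Fin 8) (Fin 8) ℂ)
    (B := Cl d)) (CliffordAlgebra.ι (normSq d) u) := rfl

theorem ff_sq (d : ℕ) (u : Fin d → ℂ) :
    ff d u * ff d u = (∑ i, u i * u i) • (1 : Amb d 8) := by
  rw [ff_apply, ← map_mul, CliffordAlgebra.ι_sq_scalar, normSq_apply, AlgHom.commutes,
    Algebra.algebraMap_eq_smul_one]

/-- the block index set -/
def e8 : Fin 4 ⊕ Fin 4 ≃ Fin 8 := finSumFinEquiv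

noncomputable def alp (d : ℕ) : Matrix (Fin 4 ⊕ Fin 4) (Fin 4 ⊕ Fin 4) ℂ →ₐ[ℂ] Amb d 8 :=
  (Algebra.TensorProduct.includeLeft (R := ℂ) (S := ℂ) (A := Matrix (Fin 8) (Fin 8) ℂ)
    (B := Cl d)).comp (Matrix.reindexAlgEquiv ℂ ℂ e8).toAlgHom

theorem alp_apply (d : ℕ) (M : Matrix (Fin 4 ⊕ Fin 4) (Fin 4 ⊕ Fin 4) ℂ) :
    alp d M = (Algebra.TensorProduct.includeLeft (R := ℂ) (S := ℂ) (A := Matrix (Fin 8) (Fin 8) ℂ)
    (B := Cl d)) (Matrix.reindexAlgEquiv ℂ ℂ e8 M) := rfl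

theorem ff_comm_alp {d : ℕ} (M : Matrix (Fin 4 ⊕ Fin 4) (Fin 4 ⊕ Fin 4) ℂ) (u : Fin d → ℂ) :
    Commute (ff d u) (alp d M) := by
  rw [alp_apply, ff_apply]
  unfold Commute SemiconjBy
  rw [Algebra.TensorProduct.includeLeft_apply, Algebra.TensorProduct.includeRight_apply,
    Algebra.TensorProduct.tmul_mul_tmul, Algebra.TensorProduct.tmul_mul_tmul, one_mul, mul_one,
    one_mul, mul_one]

theorem alp_mul_ff {d : ℕ} (M : Matrix (Fin 4 ⊕ Fin 4) (Fin 4 ⊕ Fin 4) ℂ) (u : Fin d → ℂ) :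
    alp d M * ff d u = (Matrix.reindexAlgEquiv ℂ ℂ e8 M) ⊗ₜ (CliffordAlgebra.ι (normSq d) u) := by
  rw [alp_apply, ff_apply]
  rw [Algebra.TensorProduct.includeLeft_apply, Algebra.TensorProduct.includeRight_apply,
    Algebra.TensorProduct.tmul_mul_tmul, one_mul, mul_one]

variable {m : ℕ}

/-- the matrices -/
def AA (m : ℕ) : Fin (m + 3) → Matrix (Fin 8) (Fin 8) ℂ :=
  Fin.cons (Matrix.reindex e8 e8 (blk 0)) (Fin.cons (Matrix.reindex e8 e8 (blk 1))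
    (Fin.cons (Matrix.reindex e8 e8 (blk 2)) (fun _ => 0)))

theorem AA0 : AA m i0 = Matrix.reindex e8 e8 (blk 0) := rfl
theorem AA1 : AA m i1 = Matrix.reindex e8 e8 (blk 1) := rfl
theorem AA2 : AA m i2 = Matrix.reindex e8 e8 (blk 2) := rfl
theorem AA3 (k : Fin m) : AA m k.succ.succ.succ = 0 := rfl

theorem AA_herm (j : Fin (m + 3)) : (AA m j).IsHermitian := by
  have h : ∀ i, (Matrix.reindex e8 e8 (blk i)).IsHermitian := fun i =>
    (blk_herm i).submatrix _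
  refine Fin.cases (h 0) (fun j => Fin.cases (h 1) (fun j => Fin.cases (h 2) (fun j => ?_) j) j) j
  exact Matrix.isHermitian_zero

theorem head_term {d : ℕ} (j : Fin d) (i : Fin 3) (t : ℂ) :
    ((Matrix.reindex e8 e8 (blk i)) - t • (1 : Matrix (Fin 8) (Fin 8) ℂ)) ⊗ₜ[ℂ] (gen j : Cl d) =
      alp d (blk i - t • 1) * ff d (bv j) := by
  rw [alp_mul_ff, map_sub, map_smul, map_one]
  rfl

theorem tail_term {d : ℕ} (j : Fin d) (t : ℂ) :
    (0 - t • (1 : Matrix (Fin 8) (Fin 8) ℂ)) ⊗ₜ[ℂ] (gen j : Cl d) = -(t • ff d (bv j)) := by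
  rw [ff_apply, zero_sub, TensorProduct.neg_tmul, ← TensorProduct.smul_tmul',
    Algebra.TensorProduct.includeRight_apply]
  rfl

theorem pencil_AA (lam : Fin (m + 3) → ℝ) :
    pencil (AA m) lam = alp (m + 3) (blk 0 - (lam i0 : ℂ) • 1) * ff (m + 3) (bv i0) +
      alp (m + 3) (blk 1 - (lam i1 : ℂ) • 1) * ff (m + 3) (bv i1) +
      alp (m + 3) (blk 2 - (lam i2 : ℂ) • 1) * ff (m + 3) (bv i2) - ff (m + 3) (tlC lam) := by
  have h1 : ff (m + 3) (tlC lam) = ∑ k : Fin m, (lam k.succ.succ.succ : ℂ) •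
      ff (m + 3) (bv k.succ.succ.succ) := by
    rw [f_eq_sum, Fin.sum_univ_succ, Fin.sum_univ_succ, Fin.sum_univ_succ, tlC0, tlC1, tlC2]
    simp only [tlC3, zero_smul, zero_add]
  rw [h1]
  unfold pencil
  rw [Fin.sum_univ_succ, Fin.sum_univ_succ, Fin.sum_univ_succ, AA0, AA1, AA2, head_term,
    head_term, head_term]
  simp only [AA3, tail_term]
  rw [Finset.sum_neg_distrib, ← add_assoc, ← add_assoc, ← sub_eq_add_neg]

theorem mem_spec (lam : Fin (m + 3) → ℝ) : lam ∈ cliffordSpectrum (AA m) ↔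
    (onA (lam i0) (lam i1) (lam i2) ∨ onB (lam i0) (lam i1) (lam i2)) ∧
      ∀ k : Fin m, lam k.succ.succ.succ = 0 := by
  have e : lam ∈ cliffordSpectrum (AA m) ↔ ¬ IsUnit (pencil (AA m) lam) := Iff.rfl
  have := amb_nontrivial (m + 3)
  rw [e, pencil_AA]
  exact abs_spec (ff_sq (m + 3)) ff_comm_alp lam

end Pool.Agent.X174.Cliff
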