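import Mathlib
import Pool.Agent.X174.Cliff.Defs
set_option autoImplicit false
open Topology
namespace Pool.Agent.X174.Cliff

/-- local charts as open embeddings -/
def HasChart (X : Type*) [TopologicalSpace X] (x : X) : Prop :=
  ∃ j : ℝ → X, IsOpenEmbedding j ∧ x ∈ Set.range j

theorem HasChart.open_nhd {X : Type*} [TopologicalSpace X] {x : X} (h : HasChart X x) :
    ∃ U : Set X, IsOpen U ∧ x ∈ U ∧ Nonempty (U ≃ₜ ℝ) := by
  obtain ⟨j, hj, hx⟩ := h
  exact ⟨Set.range j, hj.isOpen_range, hx, ⟨hj.isEmbedding.toHomeomorph.symm⟩⟩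

theorem HasChart.map {X Y : Type*} [TopologicalSpace X] [TopologicalSpace Y] {x : X}
    (h : HasChart X x) {f : X → Y} (hf : IsOpenEmbedding f) : HasChart Y (f x) := by
  obtain ⟨j, hj, t, ht⟩ := h
  exact ⟨f ∘ j, hf.comp hj, t, by rw [Function.comp_apply, ht]⟩

attribute [local instance] finrank_real_complex_fact'

/-- the unit circle -/
abbrev S1 : Type := Metric.sphere (0 : ℂ) 1

theorem sphere_chart (x : S1) : HasChart S1 x := by
  let v : S1 := -x
  let e := stereographic' 1 v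
  have hne : x ≠ v := by
    intro h
    have h1 : (x : ℂ) = -(x : ℂ) := congrArg Subtype.val h
    have h2 : (x : ℂ) = 0 := by linear_combination h1 / 2
    have h3 : ‖(x : ℂ)‖ = 1 := by simpa using x.2
    rw [h2, norm_zero] at h3
    exact zero_ne_one h3
  have he : IsOpenEmbedding e.symm := e.symm.isOpenEmbedding (by
    rw [OpenPartialHomeomorph.symm_source]
    exact stereographic'_target v)
  let q : ℝ ≃ₜ EuclideanSpace ℝ (Fin 1) :=
    (Homeomorph.funUnique (Fin 1) ℝ).symm.trans (EuclideanSpace.equiv (Fin 1) ℝ).symm.toHomeomorph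
  refine ⟨e.symm ∘ q, he.comp q.isOpenEmbedding, q.symm (e x), ?_⟩
  rw [Function.comp_apply, Homeomorph.apply_symm_apply]
  exact e.left_inv (by rw [stereographic'_source]; exact hne)

theorem sum_chart (x : S1 ⊕ S1) : HasChart (S1 ⊕ S1) x := by
  rcases x with x | x
  · exact (sphere_chart x).map IsOpenEmbedding.inl
  · exact (sphere_chart x).map IsOpenEmbedding.inr

theorem isOneManifold_of_homeo {X : Type*} [TopologicalSpace X] (h : S1 ⊕ S1 ≃ₜ X) :
    IsOneManifold X := by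
  have hS : Nonempty S1 := ⟨⟨1, by simp⟩⟩
  refine ⟨⟨h (Sum.inl hS.some)⟩, h.t2Space, fun x => ?_⟩
  have := (sum_chart (h.symm x)).map h.isOpenEmbedding
  rw [h.apply_symm_apply] at this
  exact this.open_nhd

variable {m : ℕ}

/-- parametrisation of the two circles -/
noncomputable def par (m : ℕ) : S1 ⊕ S1 → (Fin (m + 3) → ℝ) :=
  Sum.elim
    (fun c => Fin.cons (√5 * (c : ℂ).re) (Fin.cons (√5 * (c : ℂ).im) (Fin.cons 0 (fun _ => 0))))
    (fun c => Fin.cons (2 + √5 * (c : ℂ).re) (Fin.cons 0 (Fin.cons (√5 * (c : ℂ).im)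
      (fun _ => 0))))

theorem par_cont : Continuous (par m) := by
  refine continuous_sumElim.2 ⟨?_, ?_⟩
  · refine continuous_pi fun j => ?_
    refine Fin.cases ?_ (fun j => Fin.cases ?_ (fun j => Fin.cases ?_ (fun j => ?_) j) j) j
    · exact continuous_const.mul (Complex.continuous_re.comp continuous_subtype_val)
    · exact continuous_const.mul (Complex.continuous_im.comp continuous_subtype_val)
    · exact continuous_const
    · exact continuous_const
  · refine continuous_pi fun j => ?_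
    refine Fin.cases ?_ (fun j => Fin.cases ?_ (fun j => Fin.cases ?_ (fun j => ?_) j) j) j
    · exact continuous_const.add (continuous_const.mul
        (Complex.continuous_re.comp continuous_subtype_val))
    · exact continuous_const
    · exact continuous_const.mul (Complex.continuous_im.comp continuous_subtype_val)
    · exact continuous_const

theorem S1_sq (c : S1) : (c : ℂ).re ^ 2 + (c : ℂ).im ^ 2 = 1 := by
  have h3 : ‖(c : ℂ)‖ = 1 := by simpa using c.2
  have := Complex.sq_norm (c : ℂ)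
  rw [h3, Complex.normSq_apply] at this
  linarith

theorem sqrt5 : √5 * √5 = (5 : ℝ) := Real.mul_self_sqrt (by norm_num)
theorem sqrt5_ne : (√5 : ℝ) ≠ 0 := by positivity

theorem par_inj : Function.Injective (par m) := by
  have h5 := sqrt5
  have h5' := sqrt5_ne
  rintro (a | a) (b | b) h
  · have e0 := congrFun h 0
    have e1 := congrFun h (Fin.succ 0)
    have e0' : √5 * (a : ℂ).re = √5 * (b : ℂ).re := e0
    have e1' : √5 * (a : ℂ).im = √5 * (b : ℂ).im := e1
    congr 1
    exact Subtype.ext (Complex.ext (mul_left_cancel₀ h5' e0') (mul_left_cancel₀ h5' e1'))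
  · exfalso
    have e0 : √5 * (a : ℂ).re = 2 + √5 * (b : ℂ).re := congrFun h 0
    have e1 : √5 * (a : ℂ).im = 0 := congrFun h (Fin.succ 0)
    have e2 : 0 = √5 * (b : ℂ).im := congrFun h (Fin.succ (Fin.succ 0))
    have ha := S1_sq a
    have hb := S1_sq b
    have e1' : (a : ℂ).im = 0 := (mul_eq_zero.1 e1).resolve_left h5'
    have e2' : (b : ℂ).im = 0 := (mul_eq_zero.1 e2.symm).resolve_left h5'
    rw [e1'] at ha
    rw [e2'] at hb
    have e3 : (√5 * (a : ℂ).re) ^ 2 = 5 := by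
      calc _ = (√5 * √5) * ((a : ℂ).re ^ 2 + 0 ^ 2) := by ring
        _ = 5 := by rw [h5, ha]; ring
    have e4 : (√5 * (b : ℂ).re) ^ 2 = 5 := by
      calc _ = (√5 * √5) * ((b : ℂ).re ^ 2 + 0 ^ 2) := by ring
        _ = 5 := by rw [h5, hb]; ring
    rw [e0] at e3
    have e5 : √5 * (b : ℂ).re = -1 := by nlinarith
    rw [e5] at e4
    norm_num at e4
  · exfalso
    have e0 : 2 + √5 * (a : ℂ).re = √5 * (b : ℂ).re := congrFun h 0
    have e1 : 0 = √5 * (b : ℂ).im := congrFun h (Fin.succ 0)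
    have e2 : √5 * (a : ℂ).im = 0 := congrFun h (Fin.succ (Fin.succ 0))
    have ha := S1_sq a
    have hb := S1_sq b
    have e1' : (b : ℂ).im = 0 := (mul_eq_zero.1 e1.symm).resolve_left h5'
    have e2' : (a : ℂ).im = 0 := (mul_eq_zero.1 e2).resolve_left h5'
    rw [e2'] at ha
    rw [e1'] at hb
    have e3 : (√5 * (b : ℂ).re) ^ 2 = 5 := by
      calc _ = (√5 * √5) * ((b : ℂ).re ^ 2 + 0 ^ 2) := by ring
        _ = 5 := by rw [h5, hb]; ring
    have e4 : (√5 * (a : ℂ).re) ^ 2 = 5 := by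
      calc _ = (√5 * √5) * ((a : ℂ).re ^ 2 + 0 ^ 2) := by ring
        _ = 5 := by rw [h5, ha]; ring
    rw [← e0] at e3
    have e5 : √5 * (a : ℂ).re = -1 := by nlinarith
    rw [e5] at e4
    norm_num at e4
  · have e0 : 2 + √5 * (a : ℂ).re = 2 + √5 * (b : ℂ).re := congrFun h 0
    have e1 : √5 * (a : ℂ).im = √5 * (b : ℂ).im := congrFun h (Fin.succ (Fin.succ 0))
    congr 1
    exact Subtype.ext (Complex.ext (mul_left_cancel₀ h5' (by linarith))
      (mul_left_cancel₀ h5' e1))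

/-- point on the unit circle from a solution of `x² + y² = 5` -/
theorem exists_S1 (x y : ℝ) (h : x ^ 2 + y ^ 2 = 5) :
    ∃ c : S1, √5 * (c : ℂ).re = x ∧ √5 * (c : ℂ).im = y := by
  have h5 := sqrt5
  have h5' := sqrt5_ne
  refine ⟨⟨⟨x / √5, y / √5⟩, ?_⟩, ?_, ?_⟩
  · rw [mem_sphere_zero_iff_norm]
    have : ‖(⟨x / √5, y / √5⟩ : ℂ)‖ ^ 2 = 1 := by
      rw [Complex.sq_norm, Complex.normSq_apply]
      field_simp
      linear_combination h - h5
    nlinarith [norm_nonneg (⟨x / √5, y / √5⟩ : ℂ)]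
  · show √5 * (x / √5) = x
    field_simp
  · show √5 * (y / √5) = y
    field_simp

theorem par_range : Set.range (par m) = {lam : Fin (m + 3) → ℝ |
    ((lam 0 ^ 2 + lam (Fin.succ 0) ^ 2 = 5 ∧ lam (Fin.succ (Fin.succ 0)) = 0) ∨
      ((lam 0 - 2) ^ 2 + lam (Fin.succ (Fin.succ 0)) ^ 2 = 5 ∧ lam (Fin.succ 0) = 0)) ∧
      ∀ k : Fin m, lam k.succ.succ.succ = 0} := by
  have h5 := sqrt5
  ext lam
  constructor
  · rintro ⟨c | c, rfl⟩
    · refine ⟨Or.inl ⟨?_, rfl⟩, fun k => rfl⟩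
      show (√5 * (c : ℂ).re) ^ 2 + (√5 * (c : ℂ).im) ^ 2 = 5
      calc _ = (√5 * √5) * ((c : ℂ).re ^ 2 + (c : ℂ).im ^ 2) := by ring
        _ = 5 := by rw [h5, S1_sq]; ring
    · refine ⟨Or.inr ⟨?_, rfl⟩, fun k => rfl⟩
      show (2 + √5 * (c : ℂ).re - 2) ^ 2 + (√5 * (c : ℂ).im) ^ 2 = 5
      calc _ = (√5 * √5) * ((c : ℂ).re ^ 2 + (c : ℂ).im ^ 2) := by ring
        _ = 5 := by rw [h5, S1_sq]; ring
  · rintro ⟨⟨h1, h2⟩ | ⟨h1, h2⟩, h3⟩
    · obtain ⟨c, hc1, hc2⟩ := exists_S1 _ _ h1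
      refine ⟨Sum.inl c, ?_⟩
      funext j
      refine Fin.cases hc1 (fun j => Fin.cases hc2 (fun j => Fin.cases h2.symm
        (fun j => (h3 j).symm) j) j) j
    · obtain ⟨c, hc1, hc2⟩ := exists_S1 _ _ h1
      refine ⟨Sum.inr c, ?_⟩
      funext j
      refine Fin.cases ?_ (fun j => Fin.cases h2.symm (fun j => Fin.cases hc2
        (fun j => (h3 j).symm) j) j) j
      show 2 + √5 * (c : ℂ).re = lam 0
      linarith

/-- a set with the given description is homeomorphic to two circles -/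
theorem homeo_of_desc (X : Set (Fin (m + 3) → ℝ)) (h : X = Set.range (par m)) :
    Nonempty (S1 ⊕ S1 ≃ₜ X) := by
  subst h
  exact ⟨((par_cont (m := m)).isClosedEmbedding par_inj).isEmbedding.toHomeomorph⟩

end Pool.Agent.X174.Cliff
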